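import Pool.Agent.H484.AL.Stm

set_option autoImplicit false

namespace Pool.Agent.H484.AL

open Finset
open scoped Classical

/-- the expected number of vectors of a cell -/
theorem t_LK (hLCNT : S_LCNT) (hKAP : S_KAP) : S_LK := by
  intro e B g M a0 J α hreg t j ht hj
  obtain ⟨hk1, hk2, -, -⟩ := hKAP e B g M a0 J α hreg t j ht hj
  have hB : 64 ≤ B := hreg.hB
  have hg := hreg.hg
  have he := hreg.he
  have hX : ∀ i, 8 * g ≤ B ^ j i := by
    intro i
    have h1 : j i ∈ Ico (3 * J) (5 * J) := Fintype.mem_piFinset.mp hj i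
    rw [mem_Ico] at h1
    have h2 : B ^ J ≤ B ^ j i := Nat.pow_le_pow_right (by omega) (by omega)
    exact le_trans hreg.hgB h2
  obtain ⟨hL1, hL2⟩ := hLCNT e g α (fun i => B ^ j i) (fun i => B ^ j i) (by omega) hg hreg.hα
  have hset : ((Fintype.piFinset (fun i => Ico (B ^ j i) (B ^ j i + B ^ j i))).filter
      (fun l => g ∣ ∑ i, α i * l i)) = Lset e g B α j := by
    unfold Lset
    congr 1
    congr 1
    funext i
    rw [two_mul]
  rw [hset] at hL1 hL2
  set L := (Lset e g B α j).card with hLdef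
  set K := kap e (g * M) B t j with hKdef
  have hP : ∏ i, B ^ j i = B ^ (∑ i, j i) := Finset.prod_pow_eq_pow_sum _ _ _
  set P := B ^ (∑ i, j i) with hPdef
  have hP0 : 0 < P := Nat.pow_pos (by omega)
  have h1 : P ≤ 2 ^ e * (g * L) := by
    calc P = ∏ i : Fin e, B ^ j i := hP.symm
      _ ≤ ∏ i : Fin e, 2 * (B ^ j i - g) := by
          apply Finset.prod_le_prod'
          intro i _
          have := hX i
          omega
      _ = 2 ^ e * ∏ i : Fin e, (B ^ j i - g) := by
          rw [Finset.prod_mul_distrib, Finset.prod_const, Finset.card_univ, Fintype.card_fin]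
      _ ≤ 2 ^ e * (g * L) := Nat.mul_le_mul_left _ hL1
  have h2 : g * L ≤ 2 ^ e * P := by
    calc g * L ≤ ∏ i : Fin e, (B ^ j i + g) := hL2
      _ ≤ ∏ i : Fin e, 2 * B ^ j i := by
          apply Finset.prod_le_prod'
          intro i _
          have := hX i
          omega
      _ = 2 ^ e * P := by
          rw [Finset.prod_mul_distrib, Finset.prod_const, Finset.card_univ, Fintype.card_fin, hP]
  have hpow : B ^ (t + ∑ i, j i) = B ^ t * P := by rw [pow_add]
  rw [hpow] at hk1 hk2
  constructor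
  · have h3 : g * (B ^ t * (L * K)) ≤ g * (2 ^ e * M) := by
      calc g * (B ^ t * (L * K)) = (g * L) * (B ^ t * K) := by ring
        _ ≤ (2 ^ e * P) * (B ^ t * K) := Nat.mul_le_mul_right _ h2
        _ = 2 ^ e * (K * (B ^ t * P)) := by ring
        _ ≤ 2 ^ e * (g * M) := Nat.mul_le_mul_left _ hk1
        _ = g * (2 ^ e * M) := by ring
    exact Nat.le_of_mul_le_mul_left h3 (by omega)
  · have h3 : (P * g) * M ≤ (P * g) * (2 ^ (e + 1) * (B ^ t * (L * K))) := by
      calc (P * g) * M = P * (g * M) := by ring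
        _ ≤ (2 ^ e * (g * L)) * (2 * K * (B ^ t * P)) := Nat.mul_le_mul h1 hk2
        _ = (P * g) * (2 ^ (e + 1) * (B ^ t * (L * K))) := by ring
    exact Nat.le_of_mul_le_mul_left h3 (Nat.mul_pos hP0 (by omega))

end Pool.Agent.H484.AL
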